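import Pool.Agent.Helper91.SY.Heads

/-!
# Project SY, packet NB: a nonnegative bracket is zero
-/

set_option autoImplicit false

open Set Filter Topology
open scoped ContDiff

namespace Pool.Agent.Helper37.SY

open Pool.Agent.Helper91.SY

theorem nb_ (hTO : StmtTO) (hHV : StmtHV) (hMS : StmtMS) (hCW : StmtCW) (hCX : StmtCX) :
    Pool.Agent.Helper91.SY.StmtNB := by
  intro n η hη ℓ₁ ℓ₂ _ hinv hnb
  obtain ⟨f₁, f₂, hf₁, hf₂, ⟨K₁, hK₁, ha₁⟩, ⟨K₂, hK₂, ha₂⟩, hbr⟩ := hnb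
  refine ⟨f₁, f₂, hf₁, hf₂, ⟨K₁, hK₁, ha₁⟩, ⟨K₂, hK₂, ha₂⟩, 0, ?_⟩
  obtain ⟨B, B0, R0, hR0, hSymp, hFar, hB, hB0⟩ := hCW n η hη
  obtain ⟨R₁, hR₁⟩ := hK₁.isBounded.subset_closedBall (0 : V n)
  obtain ⟨R₂, hR₂⟩ := hK₂.isBounded.subset_closedBall (0 : V n)
  set R : ℝ := max R0 (max (R₁ + 1) (R₂ + 1)) with hRdef
  have hRR0 : R0 ≤ R := le_max_left _ _
  have hRR1 : R₁ + 1 ≤ R := le_trans (le_max_left _ _) (le_max_right _ _)
  have hRR2 : R₂ + 1 ≤ R := le_trans (le_max_right _ _) (le_max_right _ _)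
  have hlin₁ : ∀ x : V n, R ≤ ‖x‖ → f₁ x = ℓ₁ x := by
    intro x hx
    apply ha₁
    intro hxK
    have := hR₁ hxK
    rw [mem_closedBall_zero_iff] at this
    linarith
  have hlin₂ : ∀ x : V n, R ≤ ‖x‖ → f₂ x = ℓ₂ x := by
    intro x hx
    apply ha₂
    intro hxK
    have := hR₂ hxK
    rw [mem_closedBall_zero_iff] at this
    linarith
  have hFarR : Far R B B0 := fun x hx => hFar x (le_trans hRR0 hx)
  obtain ⟨e₁, he₁⟩ := (hCX n).1 ℓ₁
  obtain ⟨e₂, he₂⟩ := (hCX n).1 ℓ₂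
  have hl2e1 : ℓ₂ e₁ = 0 := by
    have h := hinv e₁ e₂ he₁ he₂
    rw [← he₂ e₁]
    have : w0 e₂ e₁ = - w0 e₁ e₂ := by
      unfold w0
      rw [← Finset.sum_neg_distrib]
      apply Finset.sum_congr rfl
      intro i _
      ring
    rw [this, h, neg_zero]
  obtain ⟨X₁, Φ, g, hX₁, hHam₁, -, hFlow, -, hgΦ, -, hSm, hPull, hTr⟩ :=
    hTO (V n) B B0 R f₁ ℓ₁ e₁ (le_trans hR0 hRR0) hSymp hFarR hf₁ hlin₁
      (fun v => by rw [hB0]; exact he₁ v)
  obtain ⟨X₂, hX₂, hHam₂⟩ := hHV (V n) B f₂ hSymp hf₂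
  -- antisymmetry
  have hanti : ∀ x u v, B x u v = - B x v u := by
    intro x u v
    have h := hSymp.alt x (u + v)
    simp only [map_add, ContinuousLinearMap.add_apply, hSymp.alt] at h
    linarith
  have hham₁ : ∀ x, HamAt η f₁ x (X₁ x) := by
    intro x v
    rw [← hB]; exact hHam₁ x v
  have hham₂ : ∀ x, HamAt η f₂ x (X₂ x) := by
    intro x v
    rw [← hB]; exact hHam₂ x v
  have hnonneg : ∀ x, 0 ≤ B x (X₁ x) (X₂ x) := by
    intro x
    rw [hB]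
    exact hbr x (X₁ x) (X₂ x) (hham₁ x) (hham₂ x)
  have hder : ∀ x t, HasDerivAt (fun s => f₂ (Φ s x))
      (-(B (Φ t x) (X₁ (Φ t x)) (X₂ (Φ t x)))) t := by
    intro x t
    have h1 : HasFDerivAt f₂ (fderiv ℝ f₂ (Φ t x)) (Φ t x) :=
      (hf₂.differentiable (by simp)).differentiableAt.hasFDerivAt
    have h2 := h1.comp_hasDerivAt t (hFlow.deriv t x)
    rw [← hHam₂ (Φ t x) (X₁ (Φ t x)), hanti] at h2
    exact h2
  have hanti' : ∀ x, Antitone (fun s => f₂ (Φ s x)) := by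
    intro x
    apply antitone_of_deriv_nonpos
    · intro t; exact (hder x t).differentiableAt
    · intro t
      rw [(hder x t).deriv]
      have := hnonneg (Φ t x)
      linarith
  have hle : ∀ x, f₂ (g x) ≤ f₂ x := by
    intro x
    have h := hanti' x (zero_le_one : (0 : ℝ) ≤ 1)
    simp only [hFlow.zero] at h
    rw [hgΦ]; exact h
  have hFar' : Far (R + 1 + ‖e₁‖) B B0 := by
    intro x hx
    apply hFarR
    have := norm_nonneg e₁
    linarith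
  have heq := hMS (V n) B B0 (R + 1 + ‖e₁‖) e₁ ℓ₂ g f₂ hSymp hFar' hSm hPull hTr
    hf₂.continuous (fun x hx => hlin₂ x (by have := norm_nonneg e₁; linarith)) hl2e1 hle
  have hzero : ∀ x, B x (X₁ x) (X₂ x) = 0 := by
    intro x
    have hconst : ∀ t ∈ Icc (0 : ℝ) 1, f₂ (Φ t x) = f₂ (Φ 0 x) := by
      intro t ht
      have h0 := hanti' x ht.1
      have h1 := hanti' x ht.2
      have h2 : f₂ (Φ 1 x) = f₂ (Φ 0 x) := by rw [← hgΦ, heq, hFlow.zero]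
      simp only at h0 h1
      linarith
    have hd := (hder x 0).hasDerivWithinAt (s := Ioi 0)
    have hev : (fun s => f₂ (Φ s x)) =ᶠ[𝓝[Ioi 0] 0] fun _ => f₂ (Φ 0 x) := by
      have : Ioo (0 : ℝ) 1 ∈ 𝓝[Ioi 0] (0 : ℝ) := Ioo_mem_nhdsGT one_pos
      filter_upwards [this] with s hs
      exact hconst s ⟨hs.1.le, hs.2.le⟩
    have hd2 : HasDerivWithinAt (fun s => f₂ (Φ s x)) 0 (Ioi 0) 0 :=
      (hasDerivWithinAt_const (0 : ℝ) (Ioi 0) (f₂ (Φ 0 x))).congr_of_eventuallyEq hev rfl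
    have hu := (uniqueDiffWithinAt_Ioi (0 : ℝ)).eq_deriv _ hd hd2
    rw [hFlow.zero] at hu
    linarith
  intro x Y₁ Y₂ hY₁ hY₂
  have hu₁ : Y₁ = X₁ x := by
    have : Y₁ - X₁ x = 0 := by
      apply hSymp.nondeg x
      intro v
      rw [map_sub, ContinuousLinearMap.sub_apply, hHam₁ x v, hB, hY₁ v, sub_self]
    exact sub_eq_zero.1 this
  have hu₂ : Y₂ = X₂ x := by
    have : Y₂ - X₂ x = 0 := by
      apply hSymp.nondeg x
      intro v
      rw [map_sub, ContinuousLinearMap.sub_apply, hHam₂ x v, hB, hY₂ v, sub_self]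
    exact sub_eq_zero.1 this
  rw [hu₁, hu₂, ← hB]
  exact hzero x

end Pool.Agent.Helper37.SY
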